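import Mathlib

/-! # Convergence of empirical laws of vectors, with test functions of polynomial growth -/

set_option autoImplicit false

namespace Pool.Agent.T6.H5.JV

open Filter Topology MeasureTheory Set ProbabilityTheory
open scoped NNReal ENNReal RealInnerProductSpace

noncomputable section

variable {E : Type*} [NormedAddCommGroup E] [InnerProductSpace ℝ E] [FiniteDimensional ℝ E]
  [MeasurableSpace E] [BorelSpace E]

/-- the empirical measure of `x 1, ..., x N` -/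
def empE (N : ℕ) (x : ℕ → E) : Measure E :=
  ∑ n ∈ Finset.Icc 1 N, ((N : ℝ≥0∞)⁻¹ • Measure.dirac (x n))

omit [InnerProductSpace ℝ E] [FiniteDimensional ℝ E] [BorelSpace E] in
lemma empE_prob {N : ℕ} (hN : 1 ≤ N) (x : ℕ → E) : IsProbabilityMeasure (empE N x) := by
  refine ⟨?_⟩
  unfold empE
  rw [Measure.finsetSum_apply]
  simp only [Measure.smul_apply, measure_univ, smul_eq_mul, mul_one, Finset.sum_const,
    Nat.card_Icc, Nat.add_sub_cancel, nsmul_eq_mul]
  exact ENNReal.mul_inv_cancel (by exact_mod_cast (by omega : N ≠ 0)) (ENNReal.natCast_ne_top N)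

omit [InnerProductSpace ℝ E] [FiniteDimensional ℝ E] in
lemma empE_int {F : Type*} [NormedAddCommGroup F] [NormedSpace ℝ F] [CompleteSpace F]
    (N : ℕ) (x : ℕ → E) (f : E → F) :
    ∫ y, f y ∂(empE N x) = ((N : ℝ)⁻¹) • ∑ n ∈ Finset.Icc 1 N, f (x n) := by
  unfold empE
  rcases Nat.eq_zero_or_pos N with h | h
  · subst h; simp
  rw [integral_finsetSum_measure]
  · rw [Finset.smul_sum]
    refine Finset.sum_congr rfl fun n _ => ?_
    rw [integral_smul_measure, integral_dirac]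
    simp
  · intro n _
    refine Integrable.smul_measure ?_ (by simp; omega)
    exact integrable_dirac (by simp)

/-- the cutoff -/
def cut (K t : ℝ) : ℝ := max 0 (min 1 (2 - t / K))

lemma cut_cont (K : ℝ) : Continuous (cut K) := by
  unfold cut
  fun_prop

lemma cut_nonneg (K t : ℝ) : 0 ≤ cut K t := le_max_left _ _

lemma cut_le (K t : ℝ) : cut K t ≤ 1 := max_le zero_le_one (min_le_left _ _)

lemma cut_one {K t : ℝ} (hK : 0 < K) (h : t ≤ K) : cut K t = 1 := by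
  unfold cut
  have h1 : t / K ≤ 1 := by rw [div_le_one hK]; exact h
  rw [min_eq_left (by linarith), max_eq_right zero_le_one]

lemma cut_zero {K t : ℝ} (hK : 0 < K) (h : 2 * K ≤ t) : cut K t = 0 := by
  unfold cut
  have h1 : 2 ≤ t / K := by rw [le_div_iff₀ hK]; exact h
  rw [max_eq_left]
  exact (min_le_right _ _).trans (by linarith)

omit [InnerProductSpace ℝ E] [FiniteDimensional ℝ E] [MeasurableSpace E] [BorelSpace E] in
lemma cut_bd {f : E → ℝ} {A : ℝ} {p : ℕ} (hA : 0 ≤ A) (hfA : ∀ x, |f x| ≤ A * (1 + ‖x‖) ^ p) {K : ℝ}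
    (hK : 0 < K) (x : E) : |f x * cut K ‖x‖| ≤ A * (1 + 2 * K) ^ p := by
  rw [abs_mul, abs_of_nonneg (cut_nonneg _ _)]
  rcases le_or_gt (2 * K) ‖x‖ with h | h
  · rw [cut_zero hK h, mul_zero]; positivity
  · calc |f x| * cut K ‖x‖ ≤ |f x| * 1 := mul_le_mul_of_nonneg_left (cut_le _ _) (abs_nonneg _)
      _ ≤ A * (1 + ‖x‖) ^ p := by rw [mul_one]; exact hfA x
      _ ≤ _ := by
        apply mul_le_mul_of_nonneg_left _ hA
        exact pow_le_pow_left₀ (by positivity) (by linarith) p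

omit [InnerProductSpace ℝ E] [FiniteDimensional ℝ E] [MeasurableSpace E] [BorelSpace E] in
lemma cut_dif {f : E → ℝ} {A : ℝ} {p : ℕ} (hA : 0 ≤ A) (hfA : ∀ x, |f x| ≤ A * (1 + ‖x‖) ^ p) {K : ℝ}
    (hK : 0 < K) (x : E) : |f x - f x * cut K ‖x‖| ≤ A / (1 + K) * (1 + ‖x‖) ^ (p + 1) := by
  rcases le_or_gt ‖x‖ K with h | h
  · rw [cut_one hK h, mul_one, sub_self, abs_zero]; positivity
  · have e : f x - f x * cut K ‖x‖ = f x * (1 - cut K ‖x‖) := by ring
    have h1 : |1 - cut K ‖x‖| ≤ 1 := by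
      rw [abs_le]
      constructor <;> linarith [cut_nonneg K ‖x‖, cut_le K ‖x‖]
    rw [e, abs_mul]
    calc |f x| * |1 - cut K ‖x‖| ≤ |f x| * 1 := mul_le_mul_of_nonneg_left h1 (abs_nonneg _)
      _ ≤ A * (1 + ‖x‖) ^ p := by rw [mul_one]; exact hfA x
      _ = A / (1 + K) * ((1 + ‖x‖) ^ p * (1 + K)) := by field_simp
      _ ≤ A / (1 + K) * ((1 + ‖x‖) ^ p * (1 + ‖x‖)) := by gcongr
      _ = _ := by rw [pow_succ]

lemma gau_int (μ : Measure E) [IsGaussian μ] (q : ℕ) : Integrable (fun x : E => (1 + ‖x‖) ^ q) μ := by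
  have h1 : MemLp (fun x : E => ‖x‖) q μ := by
    have := (IsGaussian.memLp_id μ (q : ℝ≥0∞) (by simp)).norm
    simpa using this
  have h2 : MemLp (fun _ : E => (1 : ℝ)) q μ := memLp_const 1
  have h3 := (h2.add h1).integrable_norm_pow'
  refine h3.congr (Eventually.of_forall fun x => ?_)
  show ‖(1 : ℝ) + ‖x‖‖ ^ q = _
  rw [Real.norm_of_nonneg (by positivity)]

/-- **convergence of empirical laws, with test functions of polynomial growth** -/
theorem lvE (x : ℕ → ℕ → E) (N : ℕ → ℕ) (hN : ∀ m, 1 ≤ N m) (ν : Measure E) [IsGaussian ν]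
    (hcf : ∀ ξ : E, Tendsto (fun m => ((N m : ℝ)⁻¹) • ∑ n ∈ Finset.Icc 1 (N m),
      Complex.exp (Complex.I * ((⟪x m n, ξ⟫ : ℝ) : ℂ))) atTop (𝓝 (charFun ν ξ)))
    (f : E → ℝ) (hf : Continuous f) (A : ℝ) (p : ℕ) (hfA : ∀ x, |f x| ≤ A * (1 + ‖x‖) ^ p)
    (C : ℝ) (hC : ∀ᶠ m in atTop, ∑ n ∈ Finset.Icc 1 (N m), (1 + ‖x m n‖) ^ (p + 1) ≤ C * N m) :
    Tendsto (fun m => ((N m : ℝ)⁻¹) * ∑ n ∈ Finset.Icc 1 (N m), f (x m n)) atTop
      (𝓝 (∫ y, f y ∂ν)) := by
  have hA0 : 0 ≤ A := by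
    have := (abs_nonneg _).trans (hfA 0)
    simp at this
    exact this
  let μ : ℕ → ProbabilityMeasure E := fun m => ⟨empE (N m) (x m), empE_prob (hN m) (x m)⟩
  let μ₀ : ProbabilityMeasure E := ⟨ν, inferInstance⟩
  have hw : Tendsto μ atTop (𝓝 μ₀) := by
    rw [ProbabilityMeasure.tendsto_iff_tendsto_charFun]
    intro ξ
    have h1 : ∀ m, charFun (μ m : Measure E) ξ = ((N m : ℝ)⁻¹) • ∑ n ∈ Finset.Icc 1 (N m),
        Complex.exp (Complex.I * ((⟪x m n, ξ⟫ : ℝ) : ℂ)) := by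
      intro m
      rw [charFun_apply]
      show ∫ y, Complex.exp ((⟪y, ξ⟫ : ℝ) * Complex.I) ∂(empE (N m) (x m)) = _
      rw [empE_int]
      congr 1
      refine Finset.sum_congr rfl fun n _ => ?_
      congr 1
      ring
    refine (hcf ξ).congr fun m => (h1 m).symm
  rw [ProbabilityMeasure.tendsto_iff_forall_integral_tendsto] at hw
  -- the Gaussian moment
  obtain ⟨C0, hC0⟩ : ∃ C0 : ℝ, C0 = ∫ y, (1 + ‖y‖) ^ (p + 1) ∂ν := ⟨_, rfl⟩
  have hC00 : 0 ≤ C0 := by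
    rw [hC0]
    exact integral_nonneg fun y => by positivity
  obtain ⟨C1, hC1⟩ : ∃ C1 : ℝ, C1 = max C 0 + C0 + 1 := ⟨_, rfl⟩
  have hC1p : 0 < C1 := by rw [hC1]; have := le_max_right C 0; linarith
  have hCC1 : C ≤ C1 := by rw [hC1]; have := le_max_left C 0; linarith
  have hC0C1 : C0 ≤ C1 := by rw [hC1]; have := le_max_right C 0; linarith
  rw [Metric.tendsto_atTop]
  intro ε hε
  obtain ⟨K, hK⟩ : ∃ K : ℝ, K = 1 + 8 * A * C1 / ε := ⟨_, rfl⟩
  have hK1 : 1 ≤ K := by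
    rw [hK]
    have : 0 ≤ 8 * A * C1 / ε := by positivity
    linarith
  have hK0 : 0 < K := by linarith
  have hKε : A / (1 + K) * C1 ≤ ε / 4 := by
    rw [div_mul_eq_mul_div, div_le_iff₀ (by linarith), hK]
    have : ε / 4 * (1 + (1 + 8 * A * C1 / ε)) = ε / 2 + 2 * A * C1 := by field_simp; ring
    rw [this]
    nlinarith
  obtain ⟨g, hg⟩ : ∃ g : BoundedContinuousFunction E ℝ, ∀ y, g y = f y * cut K ‖y‖ :=
    ⟨BoundedContinuousFunction.ofNormedAddCommGroup (fun y => f y * cut K ‖y‖)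
      (hf.mul ((cut_cont K).comp continuous_norm)) (A * (1 + 2 * K) ^ p)
      (fun y => by rw [Real.norm_eq_abs]; exact cut_bd hA0 hfA hK0 y), fun y => rfl⟩
  have hgt := hw g
  rw [Metric.tendsto_atTop] at hgt
  obtain ⟨m1, hm1⟩ := hgt (ε / 4) (by linarith)
  obtain ⟨m2, hm2⟩ := eventually_atTop.1 hC
  refine ⟨max m1 m2, fun m hm => ?_⟩
  have h1 := hm1 m ((le_max_left _ _).trans hm)
  have h2 := hm2 m ((le_max_right _ _).trans hm)
  rw [Real.dist_eq] at h1 ⊢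
  have hNm : (0 : ℝ) < N m := by exact_mod_cast hN m
  have e1 : ∫ y, g y ∂(μ m : Measure E) =
      ((N m : ℝ)⁻¹) * ∑ n ∈ Finset.Icc 1 (N m), f (x m n) * cut K ‖x m n‖ := by
    show ∫ y, g y ∂(empE (N m) (x m)) = _
    rw [empE_int, smul_eq_mul]
    simp only [hg]
  have e2 : ∫ y, g y ∂(μ₀ : Measure E) = ∫ y, f y * cut K ‖y‖ ∂ν := by
    show ∫ y, g y ∂ν = _
    simp only [hg]
  rw [e1, e2] at h1
  have h3 : |((N m : ℝ)⁻¹) * ∑ n ∈ Finset.Icc 1 (N m), f (x m n) -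
      ((N m : ℝ)⁻¹) * ∑ n ∈ Finset.Icc 1 (N m), f (x m n) * cut K ‖x m n‖| ≤ ε / 4 := by
    rw [← mul_sub, ← Finset.sum_sub_distrib, abs_mul, abs_of_pos (by positivity), inv_mul_le_iff₀ hNm]
    calc |∑ n ∈ Finset.Icc 1 (N m), (f (x m n) - f (x m n) * cut K ‖x m n‖)| ≤
        ∑ n ∈ Finset.Icc 1 (N m), A / (1 + K) * (1 + ‖x m n‖) ^ (p + 1) :=
          (Finset.abs_sum_le_sum_abs _ _).trans
            (Finset.sum_le_sum fun n _ => cut_dif hA0 hfA hK0 _)
      _ = A / (1 + K) * ∑ n ∈ Finset.Icc 1 (N m), (1 + ‖x m n‖) ^ (p + 1) := by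
          rw [Finset.mul_sum]
      _ ≤ A / (1 + K) * (C1 * N m) := by
          apply mul_le_mul_of_nonneg_left _ (by positivity)
          exact h2.trans (mul_le_mul_of_nonneg_right hCC1 hNm.le)
      _ = (A / (1 + K) * C1) * N m := by ring
      _ ≤ ε / 4 * N m := mul_le_mul_of_nonneg_right hKε hNm.le
      _ = N m * (ε / 4) := mul_comm _ _
  have hfi : Integrable f ν := by
    refine ((gau_int ν p).const_mul A).mono' hf.aestronglyMeasurable
      (Eventually.of_forall fun y => ?_)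
    exact hfA y
  have hci : Integrable (fun y => f y * cut K ‖y‖) ν := by
    refine (integrable_const (A * (1 + 2 * K) ^ p)).mono'
      (hf.mul ((cut_cont K).comp continuous_norm)).aestronglyMeasurable
      (Eventually.of_forall fun y => ?_)
    exact cut_bd hA0 hfA hK0 y
  have h4 : |∫ y, f y ∂ν - ∫ y, f y * cut K ‖y‖ ∂ν| ≤ ε / 4 := by
    rw [← integral_sub hfi hci]
    refine (abs_integral_le_integral_abs).trans ?_
    calc ∫ y, |f y - f y * cut K ‖y‖| ∂ν ≤ ∫ y, A / (1 + K) * (1 + ‖y‖) ^ (p + 1) ∂ν :=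
          integral_mono (hfi.sub hci).abs ((gau_int ν (p + 1)).const_mul _)
            fun y => cut_dif hA0 hfA hK0 y
      _ = A / (1 + K) * C0 := by rw [integral_const_mul, ← hC0]
      _ ≤ A / (1 + K) * C1 := mul_le_mul_of_nonneg_left hC0C1 (by positivity)
      _ ≤ ε / 4 := hKε
  have h3' := abs_le.1 h3
  have h4' := abs_le.1 h4
  have h1' := abs_lt.1 h1
  rw [abs_lt]
  constructor <;> linarith [h3'.1, h3'.2, h4'.1, h4'.2, h1'.1, h1'.2]

end

end Pool.Agent.T6.H5.JV
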