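import Pool.Agent.T6.H5.JV.Lv
import Pool.Agent.R320.JL.Fin
import Pool.Agent.R320.JL.Mom

/-! # The joint law of the sums of consecutive unfolded gaps, on RH -/

set_option autoImplicit false

namespace Pool.Agent.T6.H5.JV

open Filter Topology MeasureTheory Set ProbabilityTheory Matrix
open scoped RealInnerProductSpace
open SP (RHs)
open Pool.Agent.R320.JL (fn QQ ld joint mom1 QQ_zero)
open Pool.Agent.R320.CL (SS)
open Pool.Agent.Y743.CL (lm)

noncomputable section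

/-- the vector of the normalised gap sums -/
def XV {k : ℕ} (r : ℕ) (b : Fin k → ℕ) (n : ℕ) : EuclideanSpace ℝ (Fin k) :=
  WithLp.toLp 2 fun i => (SS (b i) n - b i) / lm r

/-- the limiting covariance matrix -/
def Sg {k : ℕ} (lam : Fin k → ℝ) (Lam : Fin k → Fin k → ℝ) : Matrix (Fin k) (Fin k) ℝ :=
  Matrix.of fun i j => (lam i + lam j - Lam i j) / 2

lemma inner_XV {k : ℕ} (r : ℕ) (b : Fin k → ℕ) (n : ℕ) (ξ : EuclideanSpace ℝ (Fin k)) :
    ⟪XV r b n, ξ⟫ = fn (fun i => ξ i) r b n := by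
  unfold XV fn
  rw [PiLp.inner_apply, Finset.sum_div]
  refine Finset.sum_congr rfl fun i _ => ?_
  simp [mul_div_assoc]

lemma norm_XV {k : ℕ} (r : ℕ) (b : Fin k → ℕ) (n : ℕ) :
    ‖XV r b n‖ ≤ ∑ i, |(SS (b i) n - b i) / lm r| := by
  have h := norm_sum_le (Finset.univ : Finset (Fin k))
    (fun i => (EuclideanSpace.single i ((SS (b i) n - b i) / lm r) : EuclideanSpace ℝ (Fin k)))
  have e : XV r b n = ∑ i, (EuclideanSpace.single i ((SS (b i) n - b i) / lm r) :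
      EuclideanSpace ℝ (Fin k)) := by
    ext j
    simp [XV, Finset.sum_apply, Pi.single_apply]
  rw [e]
  refine h.trans (le_of_eq ?_)
  refine Finset.sum_congr rfl fun i _ => ?_
  simp [abs_div]

lemma max_pow {k : ℕ} (x : Fin k → ℝ) (q : ℕ) : ∃ M : ℝ, 1 ≤ M ∧ (∀ i, |x i| ≤ M) ∧
    M ^ q ≤ 1 + ∑ i, |x i| ^ q := by
  obtain ⟨o, -, ho⟩ := Finset.exists_max_image (Finset.univ : Finset (Option (Fin k)))
    (fun o => Option.elim o (1 : ℝ) fun i => |x i|) ⟨none, Finset.mem_univ _⟩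
  refine ⟨Option.elim o (1 : ℝ) fun i => |x i|, ho none (Finset.mem_univ _),
    fun i => ho (some i) (Finset.mem_univ _), ?_⟩
  have hs : 0 ≤ ∑ i, |x i| ^ q := Finset.sum_nonneg fun i _ => by positivity
  rcases o with _ | i
  · show (1 : ℝ) ^ q ≤ _
    rw [one_pow]
    linarith
  · show |x i| ^ q ≤ _
    have h6 : |x i| ^ q ≤ ∑ i, |x i| ^ q :=
      Finset.single_le_sum (f := fun i => |x i| ^ q) (fun i _ => by positivity) (Finset.mem_univ i)
    linarith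

lemma QQ_tendsto {k : ℕ} (r : ℕ → ℕ) (b : ℕ → Fin k → ℕ) (lam : Fin k → ℝ) (Lam : Fin k → Fin k → ℝ)
    (h1 : ∀ i, Tendsto (fun m => Real.log (b m i) / Real.log (r m)) atTop (𝓝 (lam i)))
    (h2 : ∀ i j, Tendsto (fun m => Real.log |(b m i : ℝ) - b m j| / Real.log (r m)) atTop (𝓝 (Lam i j)))
    (c : Fin k → ℝ) :
    Tendsto (fun m => QQ c (r m) (b m)) atTop (𝓝 (∑ i, ∑ j, c i * c j * Sg lam Lam i j)) := by
  unfold QQ Sg
  refine tendsto_finsetSum _ fun i _ => tendsto_finsetSum _ fun j _ => ?_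
  have h3 := (((h1 i).add (h1 j)).sub (h2 i j)).div_const 2
  have h4 := h3.const_mul (c i * c j)
  refine h4.congr fun m => ?_
  unfold ld
  congr 1
  rw [← add_div, ← sub_div, div_div]
  congr 1
  ring

lemma cf_tendsto {k : ℕ} (r N : ℕ → ℕ) (hN : ∀ m, 1 ≤ N m) (b : ℕ → Fin k → ℕ)
    (hr : Tendsto r atTop atTop) (hrN : ∀ m, (r m : ℝ) * Real.log (r m) ≤ Real.log (N m))
    (hb : ∀ m i, 1 ≤ b m i ∧ b m i ≤ r m) (c : Fin k → ℝ) (Q : ℝ)
    (hQ : Tendsto (fun m => QQ c (r m) (b m)) atTop (𝓝 Q)) :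
    Tendsto (fun m => ((N m : ℝ)⁻¹) • ∑ n ∈ Finset.Icc 1 (N m),
      Complex.exp (Complex.I * ((fn c (r m) (b m) n : ℝ) : ℂ))) atTop
      (𝓝 (Real.exp (-(Q / 2)) : ℂ)) := by
  have h1 : Tendsto (fun m => ((Real.exp (-(QQ c (r m) (b m) / 2)) : ℝ) : ℂ)) atTop
      (𝓝 ((Real.exp (-(Q / 2)) : ℝ) : ℂ)) := by
    apply (Complex.continuous_ofReal.tendsto _).comp
    exact (Real.continuous_exp.tendsto _).comp ((hQ.div_const 2).neg)
  have h2 : Tendsto (fun m => ((N m : ℝ)⁻¹) • ∑ n ∈ Finset.Icc 1 (N m),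
      Complex.exp (Complex.I * ((fn c (r m) (b m) n : ℝ) : ℂ)) -
      ((Real.exp (-(QQ c (r m) (b m) / 2)) : ℝ) : ℂ)) atTop (𝓝 0) := by
    rw [Metric.tendsto_atTop]
    intro ε hε
    have h3 := hr.eventually (joint c (ε / 2) (by linarith))
    obtain ⟨m0, hm0⟩ := eventually_atTop.1 h3
    refine ⟨m0, fun m hm => ?_⟩
    have h4 := hm0 m hm (N m) (hN m) (hrN m) (b m) (hb m)
    have hNm : (0 : ℝ) < N m := by exact_mod_cast hN m
    rw [Finset.sum_sub_distrib, Finset.sum_const, Nat.card_Icc, Nat.add_sub_cancel, nsmul_eq_mul] at h4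
    rw [dist_zero_right]
    have e : ((N m : ℝ)⁻¹) • ∑ n ∈ Finset.Icc 1 (N m),
        Complex.exp (Complex.I * ((fn c (r m) (b m) n : ℝ) : ℂ)) -
        ((Real.exp (-(QQ c (r m) (b m) / 2)) : ℝ) : ℂ) = ((N m : ℝ)⁻¹) •
        (∑ n ∈ Finset.Icc 1 (N m), Complex.exp (Complex.I * ((fn c (r m) (b m) n : ℝ) : ℂ)) -
        (N m : ℂ) * ((Real.exp (-(QQ c (r m) (b m) / 2)) : ℝ) : ℂ)) := by
      rw [smul_sub]
      congr 1
      rw [Complex.real_smul]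
      push_cast
      rw [← mul_assoc, inv_mul_cancel₀ (by exact_mod_cast hNm.ne'), one_mul]
    rw [e, norm_smul, Real.norm_of_nonneg (by positivity)]
    calc (N m : ℝ)⁻¹ * _ ≤ (N m : ℝ)⁻¹ * (ε / 2 * N m) := by gcongr
      _ = ε / 2 := by field_simp
      _ < ε := by linarith
  have h5 := h2.add h1
  rw [zero_add] at h5
  refine h5.congr fun m => ?_
  ring

lemma quad {k : ℕ} (S : Matrix (Fin k) (Fin k) ℝ) (x : Fin k → ℝ) :
    x ⬝ᵥ S *ᵥ x = ∑ i, ∑ j, x i * x j * S i j := by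
  rw [dotProduct]
  refine Finset.sum_congr rfl fun i _ => ?_
  rw [mulVec, dotProduct, Finset.mul_sum]
  refine Finset.sum_congr rfl fun j _ => ?_
  ring

lemma Sg_psd {k : ℕ} (r N : ℕ → ℕ) (hN : ∀ m, 1 ≤ N m) (b : ℕ → Fin k → ℕ)
    (hr : Tendsto r atTop atTop) (hrN : ∀ m, (r m : ℝ) * Real.log (r m) ≤ Real.log (N m))
    (hb : ∀ m i, 1 ≤ b m i ∧ b m i ≤ r m) (lam : Fin k → ℝ) (Lam : Fin k → Fin k → ℝ)
    (h1 : ∀ i, Tendsto (fun m => Real.log (b m i) / Real.log (r m)) atTop (𝓝 (lam i)))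
    (h2 : ∀ i j, Tendsto (fun m => Real.log |(b m i : ℝ) - b m j| / Real.log (r m)) atTop (𝓝 (Lam i j))) :
    (Sg lam Lam).PosSemidef := by
  refine Matrix.PosSemidef.of_dotProduct_mulVec_nonneg ?_ ?_
  · ext i j
    have h3 : Lam j i = Lam i j := by
      refine tendsto_nhds_unique (h2 j i) ((h2 i j).congr fun m => ?_)
      rw [abs_sub_comm]
    simp only [Sg, Matrix.conjTranspose_apply, Matrix.of_apply, star_trivial]
    rw [h3]
    ring
  · intro x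
    rw [star_trivial, quad]
    have h3 := cf_tendsto r N hN b hr hrN hb x _ (QQ_tendsto r b lam Lam h1 h2 x)
    obtain ⟨Q, hQ⟩ : ∃ Q : ℝ, Q = ∑ i, ∑ j, x i * x j * Sg lam Lam i j := ⟨_, rfl⟩
    rw [← hQ] at h3 ⊢
    have h4 : ‖((Real.exp (-(Q / 2)) : ℝ) : ℂ)‖ ≤ 1 := by
      refine le_of_tendsto h3.norm (Eventually.of_forall fun m => ?_)
      have hNm : (0 : ℝ) < N m := by exact_mod_cast hN m
      rw [norm_smul, Real.norm_of_nonneg (by positivity), inv_mul_le_iff₀ hNm, mul_one]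
      refine (norm_sum_le _ _).trans (le_of_eq ?_)
      calc ∑ n ∈ Finset.Icc 1 (N m), ‖Complex.exp (Complex.I * ((fn x (r m) (b m) n : ℝ) : ℂ))‖
          = ∑ n ∈ Finset.Icc 1 (N m), (1 : ℝ) := by
            refine Finset.sum_congr rfl fun n _ => ?_
            rw [mul_comm, Complex.norm_exp_ofReal_mul_I]
        _ = N m := by simp
    rw [Complex.norm_real, Real.norm_of_nonneg (Real.exp_pos _).le, Real.exp_le_one_iff] at h4
    linarith

lemma mom_XV (hRH : RHs) {k : ℕ} (q : ℕ) : ∃ C : ℝ, ∀ᶠ r : ℕ in atTop, ∀ N : ℕ, 1 ≤ N →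
    r * Real.log r ≤ Real.log N → ∀ b : Fin k → ℕ, (∀ i, 1 ≤ b i ∧ b i ≤ r) →
    ∑ n ∈ Finset.Icc 1 N, (1 + ‖XV r b n‖) ^ q ≤ C * N := by
  obtain ⟨C, hC, hev⟩ := mom1 hRH q
  refine ⟨(k + 1 : ℝ) ^ q * (1 + k * C), ?_⟩
  filter_upwards [hev] with r hr N hN hrN b hb
  have hpt : ∀ n, (1 + ‖XV r b n‖) ^ q ≤ (k + 1 : ℝ) ^ q *
      (1 + ∑ i, |(SS (b i) n - b i) / lm r| ^ q) := by
    intro n
    obtain ⟨M, hM1, hle, hMq⟩ := max_pow (fun i => (SS (b i) n - b i) / lm r) q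
    have h7 : 1 + ‖XV r b n‖ ≤ (k + 1) * M := by
      have h8 := norm_XV r b n
      have h9 : ∑ i, |(SS (b i) n - b i) / lm r| ≤ k * M := by
        calc ∑ i, |(SS (b i) n - b i) / lm r| ≤ ∑ _i : Fin k, M := Finset.sum_le_sum fun i _ => hle i
          _ = k * M := by simp
      nlinarith
    calc (1 + ‖XV r b n‖) ^ q ≤ ((k + 1) * M) ^ q := pow_le_pow_left₀ (by positivity) h7 q
      _ = (k + 1 : ℝ) ^ q * M ^ q := mul_pow _ _ _
      _ ≤ _ := by gcongr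
  have hNr : (0 : ℝ) ≤ N := Nat.cast_nonneg _
  calc ∑ n ∈ Finset.Icc 1 N, (1 + ‖XV r b n‖) ^ q ≤ ∑ n ∈ Finset.Icc 1 N, (k + 1 : ℝ) ^ q *
      (1 + ∑ i, |(SS (b i) n - b i) / lm r| ^ q) := Finset.sum_le_sum fun n _ => hpt n
    _ = (k + 1 : ℝ) ^ q * (N + ∑ i, ∑ n ∈ Finset.Icc 1 N, |(SS (b i) n - b i) / lm r| ^ q) := by
        rw [← Finset.mul_sum, Finset.sum_add_distrib, Finset.sum_comm]
        simp
    _ ≤ (k + 1 : ℝ) ^ q * (N + ∑ _i : Fin k, C * N) := by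
        gcongr with i _
        exact hr N hN hrN (b i) (hb i).1 (hb i).2
    _ = _ := by
        rw [Finset.sum_const, Finset.card_univ, Fintype.card_fin, nsmul_eq_mul]
        ring

/-- **the joint law of the gap sums, with all moments** -/
theorem jointlaw (hRH : RHs) {k : ℕ} (r N : ℕ → ℕ) (hN : ∀ m, 1 ≤ N m) (b : ℕ → Fin k → ℕ)
    (hr : Tendsto r atTop atTop) (hrN : ∀ m, (r m : ℝ) * Real.log (r m) ≤ Real.log (N m))
    (hb : ∀ m i, 1 ≤ b m i ∧ b m i ≤ r m) (lam : Fin k → ℝ) (Lam : Fin k → Fin k → ℝ)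
    (h1 : ∀ i, Tendsto (fun m => Real.log (b m i) / Real.log (r m)) atTop (𝓝 (lam i)))
    (h2 : ∀ i j, Tendsto (fun m => Real.log |(b m i : ℝ) - b m j| / Real.log (r m)) atTop (𝓝 (Lam i j)))
    (f : EuclideanSpace ℝ (Fin k) → ℝ) (hf : Continuous f) (A : ℝ) (p : ℕ)
    (hfA : ∀ x, |f x| ≤ A * (1 + ‖x‖) ^ p) :
    Tendsto (fun m => ((N m : ℝ)⁻¹) * ∑ n ∈ Finset.Icc 1 (N m), f (XV (r m) (b m) n)) atTop
      (𝓝 (∫ y, f y ∂(multivariateGaussian 0 (Sg lam Lam)))) := by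
  have hpsd := Sg_psd r N hN b hr hrN hb lam Lam h1 h2
  obtain ⟨C, hC⟩ := mom_XV hRH (k := k) (p + 1)
  refine lvE (fun m n => XV (r m) (b m) n) N hN _ ?_ f hf A p hfA C ?_
  · intro ξ
    have h3 := cf_tendsto r N hN b hr hrN hb (fun i => ξ i) _ (QQ_tendsto r b lam Lam h1 h2 _)
    rw [charFun_multivariateGaussian hpsd]
    have e : Complex.exp ((⟪ξ, 0⟫ : ℝ) * Complex.I - ((ξ ⬝ᵥ (Sg lam Lam) *ᵥ ξ : ℝ) : ℂ) / 2) =
        ((Real.exp (-((∑ i, ∑ j, ξ i * ξ j * Sg lam Lam i j) / 2)) : ℝ) : ℂ) := by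
      rw [inner_zero_right, quad]
      push_cast
      congr 1
      ring
    rw [e]
    refine h3.congr fun m => ?_
    congr 1
    refine Finset.sum_congr rfl fun n _ => ?_
    rw [inner_XV]
  · have h3 := hr.eventually hC
    filter_upwards [h3] with m hm
    exact hm (N m) (hN m) (hrN m) (b m) (hb m)

end

end Pool.Agent.T6.H5.JV
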